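import Pool.Agent.Lib.MP_725b87_an.Hyperplane

/-!
Answer to Q2 of MP_725b87_an: the exceptional set need not be pluripolar. On every domain of
`ℂ^n`, `n ≥ 1`, the convex Lipschitz function `|Re (z_i - a_i)|` is a counterexample.
-/

namespace Pool.Agent.Results.MP_725b87_an.ExceptionalSetNotPluripolar

open Pool.Agent.Lib.MP_725b87_an

/-- Let `Ω ⊆ ℂ^n` be any open connected set (for example a bounded pseudoconvex domain), let `i`
be a coordinate (so `n ≥ 1`) and let `a ∈ Ω`. Then `φ(z) = |Re (z_i - a_i)|` is plurisubharmonic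
on `Ω`, its exceptional set `E(φ)` (no `C²` differential test from above) is
`{z ∈ Ω : Re z_i = Re a_i}`, and `E(φ)` is not pluripolar. -/
theorem result {n : ℕ} (Ω : Set (EuclideanSpace ℂ (Fin n))) (hΩ : IsOpen Ω)
    (hconn : IsConnected Ω) (i : Fin n) (a : EuclideanSpace ℂ (Fin n)) (ha : a ∈ Ω) :
    IsPSH Ω (fun z => ((|(z i - a i).re| : ℝ) : EReal)) ∧
      exceptionalSet Ω (fun z => ((|(z i - a i).re| : ℝ) : EReal)) =
        {z | z ∈ Ω ∧ (z i).re = (a i).re} ∧
      ¬ IsPluripolarIn Ω (exceptionalSet Ω (fun z => ((|(z i - a i).re| : ℝ) : EReal))) := by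
  have h2 : exceptionalSet Ω (fun z => ((|(z i - a i).re| : ℝ) : EReal)) =
      {z | z ∈ Ω ∧ (z i).re = (a i).re} := exceptionalSet_kink hΩ i a
  refine ⟨isPSH_kink Ω i a, h2, ?_⟩
  rw [h2]
  exact not_isPluripolarIn_hyperplane hΩ hconn.isPreconnected i ha

end Pool.Agent.Results.MP_725b87_an.ExceptionalSetNotPluripolar
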