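import Pool.Agent.Lib.MP_725b87_an.Null

/-!
Answer to Q1 of MP_725b87_an: the set of points at which a plurisubharmonic function admits no
differential test from above is Lebesgue null.
-/

namespace Pool.Agent.Results.MP_725b87_an.ExceptionalSetNull

open Pool.Agent.Lib.MP_725b87_an

/-- Let `Ω ⊆ ℂ^n` be open and connected (bounded pseudoconvex domains are included) and let `φ` be
plurisubharmonic on `Ω`, not identically `-∞`. Then the set `E(φ)` of points of `Ω` at which `φ`
has no `C²` differential test from above has Lebesgue (outer) measure zero. -/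
theorem result {n : ℕ} (Ω : Set (EuclideanSpace ℂ (Fin n))) (hΩ : IsOpen Ω) (hconn : IsConnected Ω)
    (φ : EuclideanSpace ℂ (Fin n) → EReal) (hφ : IsPSH Ω φ) (hne : ∃ z ∈ Ω, φ z ≠ ⊥) :
    MeasureTheory.volume (exceptionalSet Ω φ) = 0 :=
  volume_exceptionalSet hΩ hconn.isPreconnected hφ hne

end Pool.Agent.Results.MP_725b87_an.ExceptionalSetNull
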